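import Pool.Agent.H18.GZ.Targets3

/-!
Row EGD of the board gz: forms are eigenfunctions of `A_r`, rapidly decreasing kernels.
-/

set_option autoImplicit false

namespace Pool.Agent.H50.GZ

open MeasureTheory Filter Pool.Agent.H34.GM Pool.Agent.H34.GZ
open scoped Topology

private lemma aN_pos {m : ℕ} {z : Mat m} (hz : z.det ≠ 0) : 0 < aN z :=
  Real.rpow_pos_of_pos (abs_pos.mpr hz) _

private lemma det_of_aN {m : ℕ} (hm : 1 ≤ m) {z : Mat m} (hz : 1 ≤ aN z) : z.det ≠ 0 := by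
  intro h0
  unfold aN at hz
  rw [h0, abs_zero, Real.zero_rpow (by positivity)] at hz
  norm_num at hz

private lemma det_smul_ne {m : ℕ} {c : ℝ} (hc : c ≠ 0) {z : Mat m} (hz : z.det ≠ 0) :
    (c • z).det ≠ 0 := by
  rw [Matrix.det_smul]
  exact mul_ne_zero (pow_ne_zero _ hc) hz

private lemma kk_det {m : ℕ} {r : ℝ} (hr : 0 < r) {z α g : Mat m} (hz : z.det ≠ 0)
    (hα : α.det ≠ 0) (hg : g.det ≠ 0) : (kk r z α g).det ≠ 0 := by
  unfold kk
  apply det_smul_ne
  · have h1 := aN_pos hz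
    have h2 := aN_pos hg
    positivity
  · rw [Matrix.det_mul, Matrix.det_mul]
    refine mul_ne_zero (mul_ne_zero ?_ hα) hg
    rw [Matrix.det_nonsing_inv, Ring.inverse_eq_inv']
    exact inv_ne_zero hz

private lemma cut_norm {m : ℕ} {c : ℕ → Mat m → ℝ} (hc : ∀ j z, 0 ≤ c j z ∧ c j z ≤ 1)
    (Ψ : Mat m → ℂ) (j : ℕ) (z : Mat m) : ‖(c j z : ℂ) * Ψ z‖ ≤ ‖Ψ z‖ := by
  rw [norm_mul, Complex.norm_real, Real.norm_eq_abs, abs_of_nonneg (hc j z).1]
  exact mul_le_of_le_one_left (norm_nonneg _) (hc j z).2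

private lemma cut_lim {m : ℕ} {c : ℕ → Mat m → ℝ}
    (hc : ∀ z : Mat m, z.det ≠ 0 → Tendsto (fun j => c j z) atTop (𝓝 1))
    (Ψ : Mat m → ℂ) (z : Mat m) (hz : z.det ≠ 0) :
    Tendsto (fun j => (c j z : ℂ) * Ψ z) atTop (𝓝 (Ψ z)) := by
  have h1 : Tendsto (fun j => (c j z : ℂ)) atTop (𝓝 ((1 : ℝ) : ℂ)) :=
    (Complex.continuous_ofReal.tendsto 1).comp (hc z hz)
  have h2 := h1.mul_const (Ψ z)
  rwa [Complex.ofReal_one, one_mul] at h2

private lemma meas_pair {m : ℕ} (f : Mat m → Mat m → Mat m) (hf : Measurable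
    (fun p : V m × V m => ((fun i j => f (mt p.1) (mt p.2) i j) : V m))) (g : V m) :
    Measurable (fun z : V m => ((fun i j => f (mt z) (mt g) i j) : V m)) :=
  hf.comp (measurable_id.prodMk measurable_const : Measurable (fun z : V m => (z, g)))

private lemma meas_sz {m : ℕ} (hs : Measurable (fun z : V m => sz (mt z))) (f : V m → Mat m)
    (hf : Measurable (fun z : V m => ((fun i j => f z i j) : V m))) :
    Measurable (fun z : V m => sz (f z)) := hs.comp hf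

private lemma meas_fun {m : ℕ} (Φ : Mat m → ℂ) (hs : Measurable (fun z : V m => Φ (mt z)))
    (f : V m → Mat m) (hf : Measurable (fun z : V m => ((fun i j => f z i j) : V m))) :
    Measurable (fun z : V m => Φ (f z)) := hs.comp hf

private lemma left_lim (hMSR : T_MSR) (hTNL : T_TNL) (hALZ : T_ALZ) {m q : ℕ} [NeZero q]
    {T : ℕ → Finset (ZM m)} {D : Set (V m)} (hS : SysZ m q T D) {F : Mat m → RM m q → ℂ}
    {lam : ℕ → ℂ} {mu : Fin m → ℂ} (hE : EigZ m q T F lam mu) {Ψ : Mat m → ℂ} (hΨ : Dec m Ψ)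
    {c : ℕ → Mat m → ℝ} (hc01 : ∀ j z, 0 ≤ c j z ∧ c j z ≤ 1)
    (hc1 : ∀ z : Mat m, z.det ≠ 0 → Tendsto (fun j => c j z) atTop (𝓝 1))
    (hcT : ∀ j, Tst m (fun z => (c j z : ℂ) * Ψ z)) (g : Mat m) (r : ℝ) (x : RM m q)
    (hg : g.det ≠ 0) (hr : 0 < r) :
    Tendsto (fun j => opAz q (fun z => (c j z : ℂ) * Ψ z) r D F g x) atTop
      (𝓝 (opAz q Ψ r D F g x)) := by
  classical
  obtain ⟨-, -, -, hszm, -, -, hkkm, hΦm⟩ := hMSR.1 m
  have hcount : Countable (ZM m) := inferInstanceAs (Countable (Fin m → Fin m → ℤ))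
  obtain ⟨K, N, C, -, -, hTD⟩ := hTNL m hS.one_le 0
  have hint := hTD D hS.dom r hr g hg
  obtain ⟨M, hM0, hM⟩ := hΨ.dec N
  obtain ⟨B₀, hB₀⟩ := hE.bdd
  obtain ⟨B, hB0, hB⟩ : ∃ B : ℝ, 0 ≤ B ∧ ∀ g x, g.det ≠ 0 → ‖F g x‖ ≤ B :=
    ⟨max B₀ 0, le_max_right _ _, fun g x h => (hB₀ g x h).trans (le_max_left _ _)⟩
  obtain ⟨-, -, -, hA1, -, hA2, -⟩ := hALZ m q hS.one_le hS.two_le
  have hA3 : ∀ α : ZM m, (cR α).det = ((α.det : ℤ) : ℝ) := fun α =>
    ((hALZ m q hS.one_le hS.two_le).1.2 α).1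
  obtain ⟨e, he⟩ : ∃ e : V m → ZM m → ENNReal, e = fun z α => if α.det = 0 then 0 else
    ENNReal.ofReal ((1 + sz (kk r (mt z) (cR α) g)) ^ (-(N : ℝ))) := ⟨_, rfl⟩
  have hint' : ∫⁻ z in D, ∑' α : ZM m, e z α ∂(hm m) ≠ ⊤ := by
    refine ne_top_of_le_ne_top (ENNReal.ofReal_ne_top (r := C * r ^ K)) ?_
    rw [he]
    exact hint
  have hkm : ∀ α : ZM m, Measurable (fun z : V m =>
      ((fun i j => kk r (mt z) (cR α) g i j) : V m)) := by
    intro α
    exact meas_pair (fun a b => kk r a (cR α) b) (hkkm r (cR α)) (fun i j => g i j)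
  have hem : Measurable (fun z => ∑' α : ZM m, e z α) := by
    rw [he]
    refine Measurable.tsum fun α => ?_
    by_cases hα : α.det = 0
    · simp only [if_pos hα]
      exact measurable_const
    · simp only [if_neg hα]
      have h1 : Measurable (fun z : V m => sz (kk r (mt z) (cR α) g)) :=
        meas_sz hszm (fun z => kk r (mt z) (cR α) g) (hkm α)
      exact ((measurable_const.add h1).pow_const _).ennreal_ofReal
  have hdetD : ∀ z ∈ D, (mt z).det ≠ 0 := fun z hz =>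
    det_of_aN hS.one_le (hS.dom.shell z hz).1
  obtain ⟨μ, hμ⟩ : ∃ μ : Measure (V m), μ = (hm m).restrict D := ⟨_, rfl⟩
  have hae : ∀ᵐ z ∂μ, ∑' α : ZM m, e z α < ⊤ := by
    rw [hμ]
    exact ae_lt_top hem hint'
  have hD : ∀ᵐ z ∂μ, z ∈ D := by
    rw [hμ]
    exact ae_restrict_mem hS.dom.meas
  have hb : ∀ Φ : Mat m → ℂ, (∀ z, ‖Φ z‖ ≤ ‖Ψ z‖) → ∀ z ∈ D, ∀ α : ZM m,
      ‖Φ (kk r (mt z) (cR α) g) * F (mt z) (cQ q α * x)‖ ≤ M * B * (e z α).toReal := by
    intro Φ hΦ z hz α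
    by_cases hα : α.det = 0
    · have h1 : ¬ IsUnit (cQ q α * x) := by
        intro h
        have h2 := (hA1 α).1 ((hA2 _ _).1 h).1
        rw [hα, Int.natAbs_zero, Nat.coprime_zero_left] at h2
        have := hS.two_le
        omega
      rw [hE.supp _ _ h1, mul_zero, norm_zero]
      exact mul_nonneg (mul_nonneg hM0 hB0) ENNReal.toReal_nonneg
    · have h0 : 0 ≤ (1 + sz (kk r (mt z) (cR α) g)) ^ (-(N : ℝ)) :=
        Real.rpow_nonneg (add_nonneg zero_le_one (norm_nonneg _)) _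
      have h1 : (e z α).toReal = (1 + sz (kk r (mt z) (cR α) g)) ^ (-(N : ℝ)) := by
        rw [he]
        simp only [if_neg hα]
        exact ENNReal.toReal_ofReal h0
      rw [h1, norm_mul]
      calc ‖Φ (kk r (mt z) (cR α) g)‖ * ‖F (mt z) (cQ q α * x)‖
          ≤ (M * (1 + sz (kk r (mt z) (cR α) g)) ^ (-(N : ℝ))) * B :=
            mul_le_mul ((hΦ _).trans (hM _)) (hB _ _ (hdetD z hz)) (norm_nonneg _)
              (mul_nonneg hM0 h0)
        _ = M * B * (1 + sz (kk r (mt z) (cR α) g)) ^ (-(N : ℝ)) := by ring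
  have hsum : ∀ z : V m, ∑' α : ZM m, e z α < ⊤ →
      Summable (fun α : ZM m => M * B * (e z α).toReal) := fun z hz =>
    (ENNReal.summable_toReal hz.ne).mul_left _
  have hFm : ∀ y : RM m q, AEStronglyMeasurable (fun z : V m => F (mt z) y) μ := by
    intro y
    rw [hμ]
    have h1 : ContinuousOn (fun z : V m => F (mt z) y) D := by
      refine (hE.cont y).comp (f := fun z : V m => (mt z : Mat m)) ?_ ?_
      · exact (continuous_id (X := V m)).continuousOn
      · intro z hz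
        exact hdetD z hz
    exact h1.aestronglyMeasurable hS.dom.meas
  have htm : ∀ Φ : Mat m → ℂ, Continuous Φ → ∀ α : ZM m, AEStronglyMeasurable
      (fun z : V m => Φ (kk r (mt z) (cR α) g) * F (mt z) (cQ q α * x)) μ := by
    intro Φ hΦ α
    refine AEStronglyMeasurable.mul ?_ (hFm _)
    have h1 : Measurable (fun z : V m => Φ (kk r (mt z) (cR α) g)) :=
      meas_fun Φ (hΦm Φ hΦ) (fun z => kk r (mt z) (cR α) g) (hkm α)
    exact h1.aestronglyMeasurable
  have hgoal : Tendsto (fun j => ∫ z, (∑' α : ZM m, ((c j (kk r (mt z) (cR α) g) : ℂ) *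
        Ψ (kk r (mt z) (cR α) g)) * F (mt z) (cQ q α * x)) ∂μ) atTop
      (𝓝 (∫ z, (∑' α : ZM m, Ψ (kk r (mt z) (cR α) g) * F (mt z) (cQ q α * x)) ∂μ)) := by
    refine tendsto_integral_of_dominated_convergence
      (fun z => M * B * (∑' α : ZM m, e z α).toReal) ?_ ?_ ?_ ?_
    · intro j
      refine aestronglyMeasurable_of_tendsto_ae (Filter.atTop : Filter (Finset (ZM m)))
        (f := fun A z => ∑ α ∈ A, ((c j (kk r (mt z) (cR α) g) : ℂ) *
          Ψ (kk r (mt z) (cR α) g)) * F (mt z) (cQ q α * x)) ?_ ?_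
      · intro A
        exact Finset.aestronglyMeasurable_fun_sum A fun α _ => htm _ (hcT j).cont α
      · filter_upwards [hae, hD] with z hz hzD
        refine Summable.hasSum ?_
        exact Summable.of_norm_bounded (hsum z hz) (hb _ (cut_norm hc01 Ψ j) z hzD)
    · refine Integrable.const_mul ?_ _
      rw [hμ]
      exact integrable_toReal_of_lintegral_ne_top hem.aemeasurable hint'
    · intro j
      filter_upwards [hae, hD] with z hz hzD
      have h1 := hb _ (cut_norm hc01 Ψ j) z hzD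
      have h2 : Summable (fun α : ZM m => ‖((c j (kk r (mt z) (cR α) g) : ℂ) *
          Ψ (kk r (mt z) (cR α) g)) * F (mt z) (cQ q α * x)‖) :=
        Summable.of_nonneg_of_le (fun _ => norm_nonneg _) h1 (hsum z hz)
      refine (norm_tsum_le_tsum_norm h2).trans ?_
      refine (h2.tsum_le_tsum h1 (hsum z hz)).trans (le_of_eq ?_)
      rw [tsum_mul_left, ENNReal.tsum_toReal_eq]
      intro α
      rw [he]
      simp only
      split_ifs
      · exact ENNReal.zero_ne_top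
      · exact ENNReal.ofReal_ne_top
    · filter_upwards [hae, hD] with z hz hzD
      refine tendsto_tsum_of_dominated_convergence (hsum z hz) ?_ ?_
      · intro α
        by_cases hα : α.det = 0
        · have h1 : ¬ IsUnit (cQ q α * x) := by
            intro h
            have h2 := (hA1 α).1 ((hA2 _ _).1 h).1
            rw [hα, Int.natAbs_zero, Nat.coprime_zero_left] at h2
            have := hS.two_le
            omega
          simp only [hE.supp _ _ h1, mul_zero]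
          exact tendsto_const_nhds
        · have h1 : (kk r (mt z) (cR α) g).det ≠ 0 := by
            refine kk_det hr (hdetD z hzD) ?_ hg
            rw [hA3 α]
            exact_mod_cast hα
          exact (cut_lim hc1 Ψ _ h1).mul_const _
      · exact Eventually.of_forall fun j α => hb _ (cut_norm hc01 Ψ j) z hzD α
  rw [hμ] at hgoal
  exact hgoal

private lemma right_lim (hTHW : T_THW) {m q : ℕ} (hm1 : 1 ≤ m) {lam : ℕ → ℂ} {mu : Fin m → ℂ}
    (htr : ∑ j, mu j = 0) {C₁ : ℝ} (hC₁ : 0 ≤ C₁) (hlam : ∀ n : ℕ, 1 ≤ n → n.Coprime q →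
      ‖(n : ℂ) ^ (((m : ℂ) - 1) / 2) * lam n‖ ≤ C₁ * (n : ℝ) ^ m) {Ψ : Mat m → ℂ}
    (hΨ : Dec m Ψ) (hShm : MeasurableSet (Shell m))
    {c : ℕ → Mat m → ℝ} (hc01 : ∀ j z, 0 ≤ c j z ∧ c j z ≤ 1)
    (hc1 : ∀ z : Mat m, z.det ≠ 0 → Tendsto (fun j => c j z) atTop (𝓝 1))
    (hcT : ∀ j, Tst m (fun z => (c j z : ℂ) * Ψ z)) (r : ℝ) (hr : 0 < r) :
    Tendsto (fun j => thF q (fun z => (c j z : ℂ) * Ψ z) mu lam r) atTop
      (𝓝 (thF q Ψ mu lam r)) := by
  classical
  obtain ⟨N, hN⟩ := hTHW m hm1 mu (m * (m + 2)) htr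
  obtain ⟨M, hM0, hM⟩ := hΨ.dec N
  obtain ⟨C', hC'0, hC'⟩ := hN M hM0
  have hI := hC' Ψ hΨ.cont hM
  have hIj := fun j => hC' (fun z => (c j z : ℂ) * Ψ z) (hcT j).cont
    (fun z => (cut_norm hc01 Ψ j z).trans (hM z))
  obtain ⟨J, hJ⟩ : ∃ J : ℝ → ℝ, J = fun t => ∫ z in Shell m,
    ‖Ψ ((t⁻¹ * (aN (mt z))⁻¹) • mt z) * pw mu (mt z)‖ ∂(hm m) := ⟨_, rfl⟩
  have hJ0 : ∀ t, 0 ≤ J t := by
    intro t
    rw [hJ]
    exact integral_nonneg fun _ => norm_nonneg _
  have hpt : ∀ (j : ℕ) (t : ℝ) (z : V m),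
      ‖((c j ((t⁻¹ * (aN (mt z))⁻¹) • mt z) : ℂ) * Ψ ((t⁻¹ * (aN (mt z))⁻¹) • mt z)) *
        pw mu (mt z)‖ ≤ ‖Ψ ((t⁻¹ * (aN (mt z))⁻¹) • mt z) * pw mu (mt z)‖ := by
    intro j t z
    rw [norm_mul, norm_mul (Ψ _)]
    exact mul_le_mul_of_nonneg_right (cut_norm hc01 Ψ j _) (norm_nonneg _)
  have hJj : ∀ t : ℝ, 0 < t → ∀ j, ‖th1 (fun z => (c j z : ℂ) * Ψ z) mu t‖ ≤ J t := by
    intro t ht j
    rw [hJ]
    unfold th1
    refine (norm_integral_le_integral_norm _).trans ?_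
    exact integral_mono (hIj j t ht).1.norm (hI t ht).1.norm (hpt j t)
  have hJle : ∀ t : ℝ, 0 < t → t ≤ 1 → J t ≤ C' * t ^ (m * (m + 2)) := by
    intro t ht ht1
    rw [hJ]
    simp only
    rw [integral_eq_lintegral_of_nonneg_ae (Eventually.of_forall fun _ => norm_nonneg _)
      (hI t ht).1.aestronglyMeasurable.norm]
    exact ENNReal.toReal_le_of_le_ofReal (by positivity) ((hI t ht).2 ht1)
  have hlim : ∀ t : ℝ, 0 < t → Tendsto (fun j => th1 (fun z => (c j z : ℂ) * Ψ z) mu t) atTop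
      (𝓝 (th1 Ψ mu t)) := by
    intro t ht
    unfold th1
    refine tendsto_integral_of_dominated_convergence
      (fun z => ‖Ψ ((t⁻¹ * (aN (mt z))⁻¹) • mt z) * pw mu (mt z)‖) ?_ ?_ ?_ ?_
    · exact fun j => (hIj j t ht).1.aestronglyMeasurable
    · exact (hI t ht).1.norm
    · exact fun j => Eventually.of_forall fun z => hpt j t z
    · filter_upwards [ae_restrict_mem hShm] with z hz
      have hd : (mt z).det ≠ 0 := det_of_aN hm1 hz.1
      have ha := aN_pos hd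
      refine (cut_lim hc1 Ψ _ (det_smul_ne ?_ hd)).mul_const _
      positivity
  unfold thF
  have htn : ∀ n : ℕ, 1 ≤ n → 0 < r * (n : ℝ) ^ (-(1 / (m : ℝ))) := by
    intro n hn
    have : (0 : ℝ) < n := by exact_mod_cast hn
    positivity
  refine tendsto_tsum_of_dominated_convergence
    (bound := fun n : ℕ => if 1 ≤ n ∧ n.Coprime q then
      C₁ * (n : ℝ) ^ m * J (r * (n : ℝ) ^ (-(1 / (m : ℝ)))) else 0) ?_ ?_ ?_
  · -- summability of the bound
    have h2 : Summable (fun n : ℕ => C₁ * C' * r ^ (m * (m + 2)) * (1 / (n : ℝ) ^ 2)) :=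
      (Real.summable_one_div_nat_pow.mpr (by norm_num)).mul_left _
    refine Summable.of_norm_bounded_eventually_nat h2 ?_
    obtain ⟨n₀, hn₀⟩ := exists_nat_ge (r ^ m)
    filter_upwards [eventually_ge_atTop (max n₀ 1)] with n hn
    have hn1 : 1 ≤ n := (le_max_right _ _).trans hn
    have hnn : n₀ ≤ n := (le_max_left _ _).trans hn
    have hnpos : (0 : ℝ) < n := by exact_mod_cast hn1
    have hmpos : (0 : ℝ) < m := by exact_mod_cast hm1
    by_cases hc : 1 ≤ n ∧ n.Coprime q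
    swap
    · rw [if_neg hc, norm_zero]
      positivity
    rw [if_pos hc, Real.norm_of_nonneg (by have := hJ0 (r * (n : ℝ) ^ (-(1 / (m : ℝ)))); positivity)]
    have ht1 : r * (n : ℝ) ^ (-(1 / (m : ℝ))) ≤ 1 := by
      have h3 : r ^ m ≤ (n : ℝ) := hn₀.trans (by exact_mod_cast hnn)
      have h4 : r ≤ (n : ℝ) ^ (1 / (m : ℝ)) := by
        have h5 : (r ^ m) ^ (1 / (m : ℝ)) ≤ (n : ℝ) ^ (1 / (m : ℝ)) :=
          Real.rpow_le_rpow (by positivity) h3 (by positivity)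
        rwa [← Real.rpow_natCast, ← Real.rpow_mul hr.le, mul_one_div_cancel hmpos.ne',
          Real.rpow_one] at h5
      rw [Real.rpow_neg hnpos.le, ← div_eq_mul_inv, div_le_one (by positivity)]
      exact h4
    have h6 := hJle _ (htn n hn1) ht1
    have h7 : (r * (n : ℝ) ^ (-(1 / (m : ℝ)))) ^ (m * (m + 2)) =
        r ^ (m * (m + 2)) * ((n : ℝ) ^ (m + 2))⁻¹ := by
      rw [mul_pow]
      congr 1
      rw [← Real.rpow_natCast ((n : ℝ) ^ (-(1 / (m : ℝ)))), ← Real.rpow_mul hnpos.le]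
      have h8 : -(1 / (m : ℝ)) * ((m * (m + 2) : ℕ) : ℝ) = -((m + 2 : ℕ) : ℝ) := by
        push_cast
        field_simp
      rw [h8, Real.rpow_neg hnpos.le, Real.rpow_natCast]
    calc C₁ * (n : ℝ) ^ m * J (r * (n : ℝ) ^ (-(1 / (m : ℝ))))
        ≤ C₁ * (n : ℝ) ^ m * (C' * (r ^ (m * (m + 2)) * ((n : ℝ) ^ (m + 2))⁻¹)) := by
          rw [← h7]
          exact mul_le_mul_of_nonneg_left h6 (by positivity)
      _ = C₁ * C' * r ^ (m * (m + 2)) * (1 / (n : ℝ) ^ 2) := by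
          rw [pow_add (n : ℝ) m 2]
          field_simp
  · intro n
    by_cases hc : 1 ≤ n ∧ n.Coprime q
    · simp only [if_pos hc]
      exact (hlim _ (htn n hc.1)).const_mul _
    · simp only [if_neg hc]
      exact tendsto_const_nhds
  · refine Eventually.of_forall fun j n => ?_
    by_cases hc : 1 ≤ n ∧ n.Coprime q
    · simp only [if_pos hc]
      rw [norm_mul]
      exact mul_le_mul (hlam n hc.1 hc.2) (hJj _ (htn n hc.1) j) (norm_nonneg _) (by positivity)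
    · simp only [if_neg hc]
      rw [norm_zero]

theorem pf_EGD (hEIZ : T_EIZ) (hCUT : T_CUT) (hTNL : T_TNL) (hTHW : T_THW) (hLMZ : T_LMZ)
    (hALZ : T_ALZ) (hMSR : T_MSR) : T_EGD := by
  classical
  intro m q _ T D hS F lam mu hE Ψ hΨ g r x hg hr
  by_cases hNZ : NZ F
  · obtain ⟨C₁, hC₁, hlam⟩ := hLMZ m q T D hS F lam mu hE hNZ
    obtain ⟨c, hc01, hc1, hcT⟩ := hCUT m hS.one_le
    have h1 := left_lim hMSR hTNL hALZ hS hE hΨ hc01 hc1 (hcT Ψ hΨ) g r x hg hr
    have h2 := right_lim hTHW (q := q) hS.one_le hE.tr0 hC₁ hlam hΨ (hMSR.1 m).2.2.2.2.2.1 hc01 hc1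
      (hcT Ψ hΨ) r hr
    have h3 := h2.mul_const (F g x)
    refine tendsto_nhds_unique h1 (h3.congr fun j => ?_)
    exact (hEIZ m q T D hS F lam mu hE _ (hcT Ψ hΨ j) g r x hg hr).symm
  · have hF : ∀ g x, g.det ≠ 0 → F g x = 0 := by
      intro g x hg
      by_contra h
      exact hNZ ⟨g, x, hg, h⟩
    rw [hF g x hg, mul_zero]
    unfold opAz
    refine setIntegral_eq_zero_of_forall_eq_zero fun z hz => ?_
    have hd : (mt z).det ≠ 0 := det_of_aN hS.one_le (hS.dom.shell z hz).1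
    simp only [hF _ _ hd, mul_zero, tsum_zero]

end Pool.Agent.H50.GZ
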