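import Pool.Agent.H23.GZ.Targets5

/-!
Row TCM of the board gz: the local transform of functions supported near the orthogonal group.
-/

set_option autoImplicit false

namespace Pool.Agent.H50.GZ

open MeasureTheory Pool.Agent.H34.GM Pool.Agent.H34.GZ

private lemma sz_smul {m : ℕ} (c : ℝ) (z : Mat m) : sz (c • z) = |c| * sz z := by
  unfold sz
  have h : ((fun i j => (c • z) i j) : V m) = c • ((fun i j => z i j) : V m) := rfl
  rw [h, norm_smul, Real.norm_eq_abs]

private lemma dO_sz {m : ℕ} (w : Mat m) (h : dO w ≤ 1 / 4) : sz w ≤ 2 := by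
  have h1 : ∀ i j, w i j ^ 2 ≤ 4 := by
    intro i j
    have h2 : w i j ^ 2 ≤ (w.transpose * w) j j := by
      rw [Matrix.mul_apply]
      have h3 : w i j ^ 2 = w.transpose j i * w i j := by
        rw [Matrix.transpose_apply]
        ring
      rw [h3]
      refine Finset.single_le_sum (f := fun l => w.transpose j l * w l j) (fun l _ => ?_)
        (Finset.mem_univ i)
      simp only [Matrix.transpose_apply]
      exact mul_self_nonneg _
    have h4 : ((w.transpose * w - 1) j j) ^ 2 ≤ 1 / 4 := by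
      refine le_trans ?_ h
      unfold dO
      refine le_trans ?_ (Finset.single_le_sum
        (f := fun i => ∑ j, ((w.transpose * w - 1) i j) ^ 2)
        (fun l _ => Finset.sum_nonneg fun _ _ => sq_nonneg _) (Finset.mem_univ j))
      exact Finset.single_le_sum (f := fun l => ((w.transpose * w - 1) j l) ^ 2)
        (fun l _ => sq_nonneg _) (Finset.mem_univ j)
    rw [Matrix.sub_apply, Matrix.one_apply_eq] at h4
    nlinarith [h4, h2, sq_nonneg ((w.transpose * w) j j - 1)]
  unfold sz
  rw [pi_norm_le_iff_of_nonneg (by norm_num)]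
  intro i
  rw [pi_norm_le_iff_of_nonneg (by norm_num)]
  intro j
  rw [Real.norm_eq_abs]
  exact abs_le_of_sq_le_sq (by norm_num; exact h1 i j) (by norm_num)

private lemma aN_pow {m : ℕ} (hm : 1 ≤ m) (z : Mat m) : aN z ^ m = |z.det| := by
  unfold aN
  rw [← Real.rpow_natCast, ← Real.rpow_mul (abs_nonneg _)]
  have h : (1 / (m : ℝ)) * (m : ℝ) = 1 := by
    have : (m : ℝ) ≠ 0 := by positivity
    field_simp
  rw [h, Real.rpow_one]

private lemma det_of_aN {m : ℕ} (hm : 1 ≤ m) {z : Mat m} (hz : 1 ≤ aN z) : z.det ≠ 0 := by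
  intro h0
  unfold aN at hz
  rw [h0, abs_zero, Real.zero_rpow (by positivity)] at hz
  norm_num at hz

private lemma meas_comp {m : ℕ} (f : Mat m → ℂ) (hf : Measurable (fun z : V m => f (mt z)))
    (c : V m → ℝ) (hc : Measurable c) : Measurable (fun z : V m => f (c z • mt z)) := by
  have h1 : Measurable (fun z : V m => c z • z) := hc.smul measurable_id
  exact hf.comp h1

theorem pf_TCM : T_PWN → T_PWC → T_MSR → T_TCM := by
  intro hPWN hPWC hMSR m hm1
  obtain ⟨C, c, hC, hc, hP⟩ := hPWN m hm1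
  obtain ⟨-, -, haN, hszm, -, hSh, -, -⟩ := hMSR.1 m
  obtain ⟨B, hB⟩ : ∃ B : Set (V m), B = Shell m ∩ {z : V m | sz (mt z) ≤ 6 * Real.exp 1} :=
    ⟨_, rfl⟩
  have hBm : MeasurableSet B := by
    rw [hB]
    exact hSh.inter (measurableSet_le hszm measurable_const)
  have hBf : (hm m) B < ⊤ := by
    unfold hm
    rw [withDensity_apply _ hBm]
    calc ∫⁻ z in B, ENNReal.ofReal ((|(mt z).det| ^ m)⁻¹) ≤ ∫⁻ _ in B, 1 := by
          refine setLIntegral_mono' hBm fun z hz => ?_
          rw [hB] at hz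
          have h1 : (1 : ℝ) ≤ |(mt z).det| := by
            rw [← aN_pow hm1]
            exact one_le_pow₀ hz.1.1
          rw [← ENNReal.ofReal_one]
          exact ENNReal.ofReal_le_ofReal (inv_le_one_of_one_le₀ (one_le_pow₀ h1))
      _ = volume B := by rw [setLIntegral_const, one_mul]
      _ ≤ volume (Metric.closedBall (0 : V m) (6 * Real.exp 1)) := by
          refine measure_mono fun z hz => ?_
          rw [hB] at hz
          rw [mem_closedBall_zero_iff]
          exact hz.2
      _ < ⊤ := measure_closedBall_lt_top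
  refine ⟨min (c / 2) (1 / (4 * C)), 2 * (hm m).real B + 1, 3, by positivity, by positivity,
    by norm_num, ?_⟩
  intro mu δ M f htr hδ hδ2 hsm hM hf hfs r hr
  have hnn : 0 ≤ ∑ j, ‖mu j‖ := Finset.sum_nonneg fun _ _ => norm_nonneg _
  have hsm1 : δ * (1 + ∑ j, ‖mu j‖) ≤ c / 2 := hsm.trans (min_le_left _ _)
  have hsm2 : δ * (1 + ∑ j, ‖mu j‖) ≤ 1 / (4 * C) := hsm.trans (min_le_right _ _)
  have hδc : δ ≤ c / 2 := by
    refine le_trans ?_ hsm1
    nlinarith
  have hδC : δ ≤ 1 / (4 * C) := by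
    refine le_trans ?_ hsm2
    nlinarith
  have hCc : C * (1 / (4 * C)) = 1 / 4 := by
    field_simp
  -- the determinant of a point near the orthogonal group
  have hdet : ∀ w : Mat m, dO w ≤ δ ^ 2 → w.det ≠ 0 ∧ 1 / 3 ≤ |w.det| ∧ |w.det| ≤ 3 := by
    intro w hw
    obtain ⟨h1, h2⟩ := hP (fun _ => 0) 0 δ w hδ hw (by
      simp only [norm_zero, Finset.sum_const_zero, add_zero, mul_one]
      linarith)
    obtain ⟨-, h3⟩ := hP (fun _ => 0) 1 δ w hδ hw (by
      simp only [norm_zero, norm_one, Finset.sum_const_zero, add_zero]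
      linarith)
    simp only [norm_zero, norm_one, Finset.sum_const_zero, add_zero, mul_one, Complex.cpow_zero,
      one_mul, Complex.cpow_one] at h2 h3
    have h4 : C * δ ≤ 1 / 4 := by
      rw [← hCc]
      exact mul_le_mul_of_nonneg_left hδC hC.le
    obtain ⟨p, hp⟩ : ∃ p, p = pw (fun _ => (0 : ℂ)) w := ⟨_, rfl⟩
    rw [← hp] at h2 h3
    have h5 : ‖p‖ ≤ 5 / 4 := by
      have h6 := norm_sub_norm_le p 1
      rw [norm_one] at h6
      linarith
    have h6 : 3 / 4 ≤ ‖p‖ := by
      have h7 := norm_sub_norm_le 1 p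
      rw [norm_one, norm_sub_rev] at h7
      linarith
    have h7 : ‖((|w.det| : ℝ) : ℂ) * p‖ = |w.det| * ‖p‖ := by
      rw [norm_mul, Complex.norm_real, Real.norm_eq_abs, abs_abs]
    have h8 : |w.det| * ‖p‖ ≤ 3 / 2 := by
      have h9 := norm_sub_norm_le (((|w.det| : ℝ) : ℂ) * p) 1
      rw [norm_one, h7] at h9
      linarith
    have h9 : 1 / 2 ≤ |w.det| * ‖p‖ := by
      have h10 := norm_sub_norm_le 1 (((|w.det| : ℝ) : ℂ) * p)
      rw [norm_one, norm_sub_rev, h7] at h10
      linarith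
    have h10 : 0 ≤ |w.det| := abs_nonneg _
    refine ⟨h1, ?_, ?_⟩
    · nlinarith
    · nlinarith
  have hpw : ∀ w : Mat m, dO w ≤ δ ^ 2 → ‖pw mu w‖ ≤ 2 := by
    intro w hw
    obtain ⟨-, h2⟩ := hP mu 0 δ w hδ hw (by
      rw [norm_zero, add_zero]
      linarith)
    rw [norm_zero, add_zero, Complex.cpow_zero, one_mul] at h2
    have h3 : C * δ * (1 + ∑ j, ‖mu j‖) ≤ 1 / 4 := by
      rw [mul_assoc, ← hCc]
      exact mul_le_mul_of_nonneg_left hsm2 hC.le
    have h6 := norm_sub_norm_le (pw mu w) 1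
    rw [norm_one] at h6
    linarith
  -- points where the integrand does not vanish
  have hkey : ∀ z ∈ Shell m, f ((r⁻¹ * (aN (mt z))⁻¹) • mt z) ≠ 0 →
      (3 : ℝ)⁻¹ ≤ r ∧ r ≤ 3 ∧ z ∈ B ∧ ‖pw mu (mt z)‖ ≤ 2 := by
    intro z hz hfz
    have hd : (mt z).det ≠ 0 := det_of_aN hm1 hz.1
    have ha : 0 < aN (mt z) := lt_of_lt_of_le one_pos hz.1
    have hk : 0 < r⁻¹ * (aN (mt z))⁻¹ := by positivity
    have hw := hfs _ hfz
    obtain ⟨-, h1, h2⟩ := hdet _ hw
    have h3 : |((r⁻¹ * (aN (mt z))⁻¹) • mt z).det| = (r ^ m)⁻¹ := by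
      rw [Matrix.det_smul, Fintype.card_fin, abs_mul, abs_pow, abs_of_pos hk, mul_pow, inv_pow,
        inv_pow, aN_pow hm1]
      have : |(mt z).det| ≠ 0 := abs_ne_zero.2 hd
      field_simp
    rw [h3] at h1 h2
    have hrm : 0 < r ^ m := by positivity
    have h4 : r ^ m ≤ 3 := by
      have := (le_inv_comm₀ (by norm_num) hrm).1 h1
      norm_num at this
      exact this
    have h5 : 1 / 3 ≤ r ^ m := by
      have := (inv_le_comm₀ hrm (by norm_num)).1 h2
      norm_num at this ⊢
      exact this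
    have h6 : r ≤ 3 := by
      by_contra h
      push Not at h
      have h7 : r ≤ r ^ m := le_self_pow₀ (by linarith) (by omega)
      linarith
    have h7 : (3 : ℝ)⁻¹ ≤ r := by
      by_contra h
      push Not at h
      have h8 : r ^ m ≤ r := by
        have := pow_le_pow_of_le_one hr.le (by norm_num at h; linarith) hm1
        rwa [pow_one] at this
      norm_num at h
      linarith
    refine ⟨h7, h6, ?_, ?_⟩
    · rw [hB]
      refine ⟨hz, ?_⟩
      have h8 : dO ((r⁻¹ * (aN (mt z))⁻¹) • mt z) ≤ 1 / 4 := by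
        refine hw.trans ?_
        nlinarith
      have h9 := dO_sz _ h8
      rw [sz_smul, abs_of_pos hk] at h9
      have h10 : sz (mt z) ≤ 2 * (r * aN (mt z)) := by
        have h11 : (r * aN (mt z)) * (r⁻¹ * (aN (mt z))⁻¹ * sz (mt z)) ≤
            (r * aN (mt z)) * 2 := mul_le_mul_of_nonneg_left h9 (by positivity)
        have h12 : (r * aN (mt z)) * (r⁻¹ * (aN (mt z))⁻¹ * sz (mt z)) = sz (mt z) := by
          field_simp
        linarith
      have h11 : r * aN (mt z) ≤ 3 * Real.exp 1 :=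
        mul_le_mul h6 hz.2.le ha.le (by norm_num)
      change sz (mt z) ≤ 6 * Real.exp 1
      linarith
    · rw [← (hPWC m hm1 mu).2 htr _ hk (mt z) hd]
      exact hpw _ hw
  have hz0 : ∀ z ∈ Shell m \ B, f ((r⁻¹ * (aN (mt z))⁻¹) • mt z) * pw mu (mt z) = 0 := by
    intro z hz
    by_contra h
    exact hz.2 (hkey z hz.1 (left_ne_zero_of_mul h)).2.2.1
  have hbd : ∀ z ∈ B, ‖f ((r⁻¹ * (aN (mt z))⁻¹) • mt z) * pw mu (mt z)‖ ≤ 2 * M := by
    intro z hz
    by_cases h : f ((r⁻¹ * (aN (mt z))⁻¹) • mt z) = 0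
    · rw [h, zero_mul, norm_zero]
      positivity
    · have hz' : z ∈ Shell m := by
        rw [hB] at hz
        exact hz.1
      rw [norm_mul, mul_comm]
      exact mul_le_mul (hkey z hz' h).2.2.2 (hf _) (norm_nonneg _) (by norm_num)
  have hBS : B ⊆ Shell m := by
    rw [hB]
    exact Set.inter_subset_left
  refine ⟨?_, ?_, ?_⟩
  · unfold th1
    rw [setIntegral_eq_of_subset_of_forall_sdiff_eq_zero hSh hBS hz0]
    refine (norm_setIntegral_le_of_norm_le_const hBf hbd).trans ?_
    have h1 : 0 ≤ (hm m).real B := measureReal_nonneg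
    nlinarith
  · intro hne
    by_contra hno
    refine hne ?_
    unfold th1
    refine setIntegral_eq_zero_of_forall_eq_zero fun z hz => ?_
    by_contra h
    have h1 := hkey z hz (left_ne_zero_of_mul h)
    exact hno ⟨h1.1, h1.2.1⟩
  · intro hfm
    have h1 : IntegrableOn (fun z : V m => f ((r⁻¹ * (aN (mt z))⁻¹) • mt z) * pw mu (mt z)) B
        (hm m) := by
      have hfin : IsFiniteMeasure ((hm m).restrict B) :=
        ⟨by rw [Measure.restrict_apply_univ]; exact hBf⟩
      refine Integrable.of_bound ?_ (2 * M) ?_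
      · refine AEStronglyMeasurable.mul ?_ ?_
        · have h2 : Measurable (fun z : V m => f ((r⁻¹ * (aN (mt z))⁻¹) • mt z)) :=
            meas_comp f hfm (fun z => r⁻¹ * (aN (mt z))⁻¹) (measurable_const.mul haN.inv)
          exact h2.aestronglyMeasurable
        · have h2 : ContinuousOn (fun z : V m => pw mu (mt z)) B := by
            refine (hPWC m hm1 mu).1.comp (f := fun z : V m => (mt z : Mat m)) ?_ ?_
            · exact (continuous_id (X := V m)).continuousOn
            · intro z hz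
              exact det_of_aN hm1 (hBS hz).1
          exact h2.aestronglyMeasurable hBm
      · filter_upwards [ae_restrict_mem hBm] with z hz
        exact hbd z hz
    exact h1.of_forall_sdiff_eq_zero hSh hz0

end Pool.Agent.H50.GZ
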